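import Pool.Agent.L5helper51.SV.Walk0

/-!
# Straight-line programs over `(min, +)` with few registers

Definitions: instructions, programs, their values, walks and distances.
-/

namespace Pool.Agent.L5helper51.SV

/-- An instruction of a straight-line `(min, +)` program with register set `R`, whose inputs are the
weights of the pairs of vertices: load an input, load a constant, minimum, sum. The first argument
is the register which is overwritten. -/
inductive Instr (V R : Type*) : Type _
  | inp (a : R) (e : V × V) : Instr V R
  | con (a : R) (c : ℕ∞) : Instr V R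
  | mn (a b c : R) : Instr V R
  | ad (a b c : R) : Instr V R

variable {V R : Type*} [DecidableEq R]

/-- The effect of one instruction on the contents of the registers. -/
noncomputable def Instr.exec (w : V × V → ℕ∞) (σ : R → ℕ∞) : Instr V R → (R → ℕ∞)
  | .inp a e => Function.update σ a (w e)
  | .con a c => Function.update σ a c
  | .mn a b c => Function.update σ a (min (σ b) (σ c))
  | .ad a b c => Function.update σ a (σ b + σ c)

/-- The contents of the registers after the program has been executed (from left to right) from the
contents `σ`. -/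
noncomputable def exec (w : V × V → ℕ∞) (P : List (Instr V R)) (σ : R → ℕ∞) : R → ℕ∞ :=
  P.foldl (fun σ i => i.exec w σ) σ

/-- The value computed by the program `P` in the register `out`; at the start all registers contain
`∞`. -/
noncomputable def value (P : List (Instr V R)) (out : R) (w : V × V → ℕ∞) : ℕ∞ := exec w P (fun _ => ⊤) out

/-- Is the instruction a load of an input? -/
def Instr.isInp : Instr V R → Bool
  | .inp _ _ => true
  | .con _ _ => false
  | .mn _ _ _ => false
  | .ad _ _ _ => false

/-- The number of instructions which load an input. -/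
def reads (P : List (Instr V R)) : ℕ := P.countP Instr.isInp

/-! ### Formal contents of registers -/

/-- A monomial: a multiset of pairs and a constant. -/
abbrev Mon (V : Type*) := Multiset (V × V) × ℕ

/-- The formal effect of an instruction on sets of monomials. -/
def Instr.cnt (C : R → Set (Mon V)) : Instr V R → (R → Set (Mon V))
  | .inp a e => Function.update C a {({e}, 0)}
  | .con a c => Function.update C a {x | x.1 = 0 ∧ (x.2 : ℕ∞) = c}
  | .mn a b c => Function.update C a (C b ∪ C c)
  | .ad a b c => Function.update C a {x | ∃ y ∈ C b, ∃ z ∈ C c, y + z = x}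

/-- The formal contents after a program. -/
def cnt (P : List (Instr V R)) (C : R → Set (Mon V)) : R → Set (Mon V) :=
  P.foldl (fun C i => i.cnt C) C

theorem cnt_nil (C : R → Set (Mon V)) : cnt [] C = C := rfl

theorem cnt_cons (i : Instr V R) (P : List (Instr V R)) (C : R → Set (Mon V)) :
    cnt (i :: P) C = cnt P (i.cnt C) := rfl

theorem cnt_append (P Q : List (Instr V R)) (C : R → Set (Mon V)) :
    cnt (P ++ Q) C = cnt Q (cnt P C) := by
  simp [cnt, List.foldl_append]

theorem exec_append (w : V × V → ℕ∞) (P Q : List (Instr V R)) (σ : R → ℕ∞) :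
    exec w (P ++ Q) σ = exec w Q (exec w P σ) := by
  simp [exec, List.foldl_append]

/-- The value of a monomial. -/
def evm (w : V × V → ℕ∞) (x : Mon V) : ℕ∞ := (x.1.map w).sum + x.2

theorem evm_add (w : V × V → ℕ∞) (x y : Mon V) : evm w (x + y) = evm w x + evm w y := by
  simp only [evm, Prod.fst_add, Prod.snd_add, Multiset.map_add, Multiset.sum_add, Nat.cast_add]
  abel

omit [DecidableEq R] in
theorem reads_append (P Q : List (Instr V R)) : reads (P ++ Q) = reads P + reads Q := by
  simp [reads]

omit [DecidableEq R] in
theorem reads_cons (i : Instr V R) (P : List (Instr V R)) :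
    reads (i :: P) = reads P + if i.isInp then 1 else 0 := by
  simp [reads, List.countP_cons]

omit [DecidableEq R] in
theorem reads_le_length (P : List (Instr V R)) : reads P ≤ P.length := List.countP_le_length

omit [DecidableEq R] in
theorem exists_split : ∀ (W : List (Instr V R)) (n : ℕ), n ≤ reads W →
    ∃ W1 W2, W = W1 ++ W2 ∧ reads W1 = n ∧ reads W2 + n = reads W
  | [], n, h => by
    have : n = 0 := by simpa [reads] using h
    subst this
    exact ⟨[], [], rfl, rfl, rfl⟩
  | i :: W, n, h => by
    cases n with
    | zero => exact ⟨[], i :: W, rfl, rfl, rfl⟩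
    | succ n =>
      rw [reads_cons] at h
      by_cases hi : i.isInp = true
      · rw [if_pos hi] at h
        obtain ⟨W1, W2, h1, h2, h3⟩ := exists_split W n (by omega)
        refine ⟨i :: W1, W2, by rw [h1]; rfl, ?_, ?_⟩
        · rw [reads_cons, if_pos hi, h2]
        · rw [reads_cons, if_pos hi]; omega
      · rw [if_neg hi] at h
        obtain ⟨W1, W2, h1, h2, h3⟩ := exists_split W (n + 1) (by omega)
        refine ⟨i :: W1, W2, by rw [h1]; rfl, ?_, ?_⟩
        · rw [reads_cons, if_neg hi, h2]
        · rw [reads_cons, if_neg hi]; omega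

/-- two different inputs in a list of instructions -/
theorem two_le_reads {W : List (Instr V R)} {a a' : R} {e e' : V × V} (h : Instr.inp a e ∈ W)
    (h' : Instr.inp a' e' ∈ W) (hne : e ≠ e') : 2 ≤ reads W := by
  by_contra hcon
  push Not at hcon
  obtain ⟨W1, W2, hW⟩ := List.append_of_mem h
  rw [hW, reads_append, reads_cons] at hcon
  simp only [Instr.isInp, if_true] at hcon
  have h1 : reads W1 = 0 := by omega
  have h2 : reads W2 = 0 := by omega
  rw [reads, List.countP_eq_zero] at h1 h2
  rw [hW, List.mem_append, List.mem_cons] at h'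
  rcases h' with h' | h' | h'
  · exact h1 _ h' rfl
  · rw [Instr.inp.injEq] at h'
    exact hne h'.2.symm
  · exact h2 _ h' rfl

/-- contents and values correspond: upper bound -/
theorem upper (w : V × V → ℕ∞) (P : List (Instr V R)) :
    ∀ (C : R → Set (Mon V)) (σ : R → ℕ∞), (∀ a, ∀ x ∈ C a, σ a ≤ evm w x) →
      ∀ a, ∀ x ∈ cnt P C a, exec w P σ a ≤ evm w x := by
  induction P with
  | nil => intro C σ h; exact h
  | cons i P ih =>
    intro C σ h
    rw [cnt_cons]
    change ∀ a, ∀ x ∈ cnt P (i.cnt C) a, exec w P (i.exec w σ) a ≤ evm w x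
    apply ih
    intro a x hx
    cases i with
    | inp b e =>
      by_cases hab : a = b
      · subst hab
        simp only [Instr.cnt, Function.update_self, Set.mem_singleton_iff] at hx
        subst hx
        simp [Instr.exec, evm]
      · simp only [Instr.cnt, Function.update_of_ne hab] at hx
        simpa only [Instr.exec, Function.update_of_ne hab] using h a x hx
    | con b c =>
      by_cases hab : a = b
      · subst hab
        simp only [Instr.cnt, Function.update_self, Set.mem_ofPred_eq] at hx
        simp [Instr.exec, evm, hx.1, hx.2]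
      · simp only [Instr.cnt, Function.update_of_ne hab] at hx
        simpa only [Instr.exec, Function.update_of_ne hab] using h a x hx
    | mn b c d =>
      by_cases hab : a = b
      · subst hab
        simp only [Instr.cnt, Function.update_self, Set.mem_union] at hx
        simp only [Instr.exec, Function.update_self]
        rcases hx with hx | hx
        · exact (min_le_left _ _).trans (h _ _ hx)
        · exact (min_le_right _ _).trans (h _ _ hx)
      · simp only [Instr.cnt, Function.update_of_ne hab] at hx
        simpa only [Instr.exec, Function.update_of_ne hab] using h a x hx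
    | ad b c d =>
      by_cases hab : a = b
      · subst hab
        simp only [Instr.cnt, Function.update_self, Set.mem_ofPred_eq] at hx
        obtain ⟨y, hy, z, hz, rfl⟩ := hx
        simp only [Instr.exec, Function.update_self, evm_add]
        exact add_le_add (h _ _ hy) (h _ _ hz)
      · simp only [Instr.cnt, Function.update_of_ne hab] at hx
        simpa only [Instr.exec, Function.update_of_ne hab] using h a x hx

/-- contents and values correspond: finite values are attained -/
theorem attained (w : V × V → ℕ∞) (P : List (Instr V R)) :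
    ∀ (C : R → Set (Mon V)) (σ : R → ℕ∞), (∀ a, σ a ≠ ⊤ → ∃ x ∈ C a, σ a = evm w x) →
      ∀ a, exec w P σ a ≠ ⊤ → ∃ x ∈ cnt P C a, exec w P σ a = evm w x := by
  induction P with
  | nil => intro C σ h; exact h
  | cons i P ih =>
    intro C σ h
    rw [cnt_cons]
    change ∀ a, exec w P (i.exec w σ) a ≠ ⊤ → ∃ x ∈ cnt P (i.cnt C) a, exec w P (i.exec w σ) a = evm w x
    apply ih
    intro a ha
    cases i with
    | inp b e =>
      by_cases hab : a = b
      · subst hab
        exact ⟨({e}, 0), by simp [Instr.cnt], by simp [Instr.exec, evm]⟩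
      · simp only [Instr.cnt, Instr.exec, Function.update_of_ne hab] at ha ⊢
        exact h a ha
    | con b c =>
      by_cases hab : a = b
      · subst hab
        simp only [Instr.exec, Function.update_self] at ha
        obtain ⟨n, rfl⟩ := ENat.ne_top_iff_exists.1 ha
        exact ⟨(0, n), by simp [Instr.cnt], by simp [Instr.exec, evm]⟩
      · simp only [Instr.cnt, Instr.exec, Function.update_of_ne hab] at ha ⊢
        exact h a ha
    | mn b c d =>
      by_cases hab : a = b
      · subst hab
        simp only [Instr.cnt, Instr.exec, Function.update_self] at ha ⊢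
        rcases min_choice (σ c) (σ d) with h1 | h1
        · rw [h1] at ha ⊢
          obtain ⟨x, hx, hx'⟩ := h c ha
          exact ⟨x, Or.inl hx, hx'⟩
        · rw [h1] at ha ⊢
          obtain ⟨x, hx, hx'⟩ := h d ha
          exact ⟨x, Or.inr hx, hx'⟩
      · simp only [Instr.cnt, Instr.exec, Function.update_of_ne hab] at ha ⊢
        exact h a ha
    | ad b c d =>
      by_cases hab : a = b
      · subst hab
        simp only [Instr.cnt, Instr.exec, Function.update_self] at ha ⊢
        have hc : σ c ≠ ⊤ := fun h => ha (by simp [h])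
        have hd : σ d ≠ ⊤ := fun h => ha (by simp [h])
        obtain ⟨x, hx, hx'⟩ := h c hc
        obtain ⟨y, hy, hy'⟩ := h d hd
        exact ⟨x + y, ⟨x, hx, y, hy, rfl⟩, by rw [evm_add, hx', hy']⟩
      · simp only [Instr.cnt, Instr.exec, Function.update_of_ne hab] at ha ⊢
        exact h a ha

/-- every pair in a monomial has been loaded or was there at the start -/
theorem cnt_support (W : List (Instr V R)) : ∀ (C : R → Set (Mon V)) (b : R) (m : Mon V),
    m ∈ cnt W C b → ∀ e ∈ m.1, (∃ a, Instr.inp a e ∈ W) ∨ ∃ b', ∃ m' ∈ C b', e ∈ m'.1 := by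
  induction W with
  | nil => intro C b m hm e he; exact Or.inr ⟨b, m, hm, he⟩
  | cons i W ih =>
    intro C b m hm e he
    rcases ih (i.cnt C) b m hm e he with ⟨a, ha⟩ | ⟨b', m', hm', he'⟩
    · exact Or.inl ⟨a, List.mem_cons_of_mem _ ha⟩
    · cases i with
      | inp c d =>
        by_cases hb : b' = c
        · subst hb
          simp only [Instr.cnt, Function.update_self, Set.mem_singleton_iff] at hm'
          subst hm'
          rw [Multiset.mem_singleton] at he'
          subst he'
          exact Or.inl ⟨b', by simp⟩
        · simp only [Instr.cnt, Function.update_of_ne hb] at hm'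
          exact Or.inr ⟨b', m', hm', he'⟩
      | con c d =>
        by_cases hb : b' = c
        · subst hb
          simp only [Instr.cnt, Function.update_self, Set.mem_ofPred_eq] at hm'
          rw [hm'.1] at he'
          simp at he'
        · simp only [Instr.cnt, Function.update_of_ne hb] at hm'
          exact Or.inr ⟨b', m', hm', he'⟩
      | mn c d f =>
        by_cases hb : b' = c
        · subst hb
          simp only [Instr.cnt, Function.update_self, Set.mem_union] at hm'
          rcases hm' with hm' | hm'
          · exact Or.inr ⟨_, m', hm', he'⟩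
          · exact Or.inr ⟨_, m', hm', he'⟩
        · simp only [Instr.cnt, Function.update_of_ne hb] at hm'
          exact Or.inr ⟨b', m', hm', he'⟩
      | ad c d f =>
        by_cases hb : b' = c
        · subst hb
          simp only [Instr.cnt, Function.update_self, Set.mem_ofPred_eq] at hm'
          obtain ⟨y, hy, z, hz, rfl⟩ := hm'
          rw [Prod.fst_add, Multiset.mem_add] at he'
          rcases he' with he' | he'
          · exact Or.inr ⟨_, y, hy, he'⟩
          · exact Or.inr ⟨_, z, hz, he'⟩
        · simp only [Instr.cnt, Function.update_of_ne hb] at hm'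
          exact Or.inr ⟨b', m', hm', he'⟩

/-- monotonicity of the contents -/
theorem Instr.cnt_mono (i : Instr V R) {C D : R → Set (Mon V)} (h : ∀ a, C a ⊆ D a) :
    ∀ a, i.cnt C a ⊆ i.cnt D a := by
  intro a x hx
  cases i with
  | inp b e =>
    by_cases hab : a = b
    · subst hab; simpa [Instr.cnt] using hx
    · simp only [Instr.cnt, Function.update_of_ne hab] at hx ⊢; exact h a hx
  | con b c =>
    by_cases hab : a = b
    · subst hab; simpa [Instr.cnt] using hx
    · simp only [Instr.cnt, Function.update_of_ne hab] at hx ⊢; exact h a hx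
  | mn b c d =>
    by_cases hab : a = b
    · subst hab
      simp only [Instr.cnt, Function.update_self] at hx ⊢
      exact hx.imp (fun h1 => h _ h1) (fun h1 => h _ h1)
    · simp only [Instr.cnt, Function.update_of_ne hab] at hx ⊢; exact h a hx
  | ad b c d =>
    by_cases hab : a = b
    · subst hab
      simp only [Instr.cnt, Function.update_self] at hx ⊢
      obtain ⟨y, hy, z, hz, rfl⟩ := hx
      exact ⟨y, h _ hy, z, h _ hz, rfl⟩
    · simp only [Instr.cnt, Function.update_of_ne hab] at hx ⊢; exact h a hx

theorem cnt_mono (P : List (Instr V R)) : ∀ {C D : R → Set (Mon V)}, (∀ a, C a ⊆ D a) →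
    ∀ a, cnt P C a ⊆ cnt P D a := by
  induction P with
  | nil => intro C D h; exact h
  | cons i P ih =>
    intro C D h
    rw [cnt_cons, cnt_cons]
    exact ih (i.cnt_mono h)

/-- `C` with the monomial `m` added to the register `a` -/
def ext (C : R → Set (Mon V)) (a : R) (m : Mon V) : R → Set (Mon V) :=
  fun x => C x ∪ {y | x = a ∧ y = m}

/-- `K` is a context of the register `a` if every monomial `m` in the register `a` is finally
completed to `K + m` -/
def Ctx (out : R) (P : List (Instr V R)) (C : R → Set (Mon V)) (a : R) : Set (Mon V) :=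
  {K | ∀ m, K + m ∈ cnt P (ext C a m) out}

theorem plug {out : R} {P : List (Instr V R)} {C : R → Set (Mon V)} {a : R} {K m : Mon V}
    (hK : K ∈ Ctx out P C a) (hm : m ∈ C a) : K + m ∈ cnt P C out := by
  refine cnt_mono P ?_ out (hK m)
  rintro x y (hy | ⟨rfl, rfl⟩)
  · exact hy
  · exact hm

theorem zero_mem_ctx (out : R) (C : R → Set (Mon V)) : (0 : Mon V) ∈ Ctx out [] C out := by
  intro m
  rw [zero_add]
  exact Or.inr ⟨rfl, rfl⟩

theorem ctx_step {out : R} {i : Instr V R} {P : List (Instr V R)} {C : R → Set (Mon V)} {a b : R}
    {K k : Mon V} (hK : K ∈ Ctx out P (i.cnt C) b)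
    (h : ∀ m, ∀ x, ext (i.cnt C) b (k + m) x ⊆ i.cnt (ext C a m) x) :
    K + k ∈ Ctx out (i :: P) C a := by
  intro m
  rw [cnt_cons, add_assoc]
  exact cnt_mono P (h m) out (hK (k + m))

omit [DecidableEq R] in
theorem subset_ext (C : R → Set (Mon V)) (a : R) (m : Mon V) (x : R) : C x ⊆ ext C a m x :=
  fun _ hy => Or.inl hy

omit [DecidableEq R] in
theorem mem_ext (C : R → Set (Mon V)) (a : R) (m : Mon V) : m ∈ ext C a m a :=
  Or.inr ⟨rfl, rfl⟩

omit [DecidableEq R] in
theorem ext_le {C D : R → Set (Mon V)} {a : R} {m : Mon V} (h : ∀ x, C x ⊆ D x) (hm : m ∈ D a)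
    (x : R) : ext C a m x ⊆ D x := by
  rintro y (hy | ⟨rfl, rfl⟩)
  · exact h x hy
  · exact hm

/-- The register written by an instruction. -/
def Instr.tgt : Instr V R → R
  | .inp a _ => a
  | .con a _ => a
  | .mn a _ _ => a
  | .ad a _ _ => a

theorem Instr.cnt_of_ne (i : Instr V R) (C : R → Set (Mon V)) {a : R} (h : a ≠ i.tgt) :
    i.cnt C a = C a := by
  cases i <;> simp only [Instr.tgt] at h <;> simp only [Instr.cnt, Function.update_of_ne h]

theorem ctx_of_ne {out : R} {i : Instr V R} {P : List (Instr V R)} {C : R → Set (Mon V)} {a : R}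
    {K : Mon V} (hK : K ∈ Ctx out P (i.cnt C) a) (h : a ≠ i.tgt) : K ∈ Ctx out (i :: P) C a := by
  have := ctx_step (a := a) (k := 0) hK ?_
  · simpa using this
  · intro m x
    rw [zero_add]
    apply ext_le (i.cnt_mono (subset_ext C a m))
    rw [Instr.cnt_of_ne _ _ h]
    exact mem_ext C a m

theorem ctx_mn {out a b c d : R} {P : List (Instr V R)} {C : R → Set (Mon V)}
    {K : Mon V} (hK : K ∈ Ctx out P ((Instr.mn a b c).cnt C) a) (h : d = b ∨ d = c) :
    K ∈ Ctx out (.mn a b c :: P) C d := by
  have := ctx_step (a := d) (k := 0) hK ?_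
  · simpa using this
  · intro m x
    rw [zero_add]
    apply ext_le ((Instr.mn a b c).cnt_mono (subset_ext C d m))
    simp only [Instr.cnt, Function.update_self]
    rcases h with rfl | rfl
    · exact Or.inl (mem_ext C _ m)
    · exact Or.inr (mem_ext C _ m)

theorem ctx_ad_left {out a b c : R} {P : List (Instr V R)} {C : R → Set (Mon V)}
    {K k : Mon V} (hK : K ∈ Ctx out P ((Instr.ad a b c).cnt C) a) (hk : k ∈ C c) :
    K + k ∈ Ctx out (.ad a b c :: P) C b := by
  refine ctx_step (a := b) (k := k) hK ?_
  intro m x
  apply ext_le ((Instr.ad a b c).cnt_mono (subset_ext C b m))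
  simp only [Instr.cnt, Function.update_self]
  exact ⟨m, mem_ext C _ m, k, subset_ext C _ _ _ hk, add_comm _ _⟩

theorem ctx_ad_right {out a b c : R} {P : List (Instr V R)} {C : R → Set (Mon V)}
    {K k : Mon V} (hK : K ∈ Ctx out P ((Instr.ad a b c).cnt C) a) (hk : k ∈ C b) :
    K + k ∈ Ctx out (.ad a b c :: P) C c := by
  refine ctx_step (a := c) (k := k) hK ?_
  intro m x
  apply ext_le ((Instr.ad a b c).cnt_mono (subset_ext C c m))
  simp only [Instr.cnt, Function.update_self]
  exact ⟨k, subset_ext C _ _ _ hk, m, mem_ext C _ m, rfl⟩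

/-- contents restricted to the monomials with property `Q` -/
def res (Q : Mon V → Prop) (C : R → Set (Mon V)) : R → Set (Mon V) := fun a => {m | m ∈ C a ∧ Q m}

/-- The trace lemma. -/
theorem trace (out : R) (Q : Mon V → Prop) {D D' : R → Set (Mon V)} (hD : ∀ a, D' a ⊆ D a)
    (P : List (Instr V R)) : ∀ (rest : List (Instr V R)) (a : R) (m K : Mon V),
      m ∈ cnt P D' a → K ∈ Ctx out rest (cnt P D) a →
      m ∈ cnt P (res Q D') a ∨
        ∃ b, ∃ m0 ∈ D' b, ¬ Q m0 ∧ ∃ m', m = m0 + m' ∧ K + m' ∈ Ctx out (P ++ rest) D b := by
  induction P using List.reverseRecOn with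
  | nil =>
    intro rest a m K hm hK
    by_cases hQ : Q m
    · exact Or.inl ⟨hm, hQ⟩
    · exact Or.inr ⟨a, m, hm, hQ, 0, by simp, by simpa [cnt_nil] using hK⟩
  | append_singleton P i ih =>
    intro rest a m K hm hK
    rw [cnt_append] at hm hK ⊢
    rw [List.append_assoc]
    change m ∈ i.cnt (cnt P D') a at hm
    change K ∈ Ctx out rest (i.cnt (cnt P D)) a at hK
    change m ∈ i.cnt (cnt P (res Q D')) a ∨ _
    by_cases ha : a = i.tgt
    · cases i with
      | inp b e =>
        simp only [Instr.tgt] at ha
        subst ha
        left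
        simpa [Instr.cnt] using hm
      | con b c =>
        simp only [Instr.tgt] at ha
        subst ha
        left
        simpa [Instr.cnt] using hm
      | mn b c d =>
        simp only [Instr.tgt] at ha
        subst ha
        simp only [Instr.cnt, Function.update_self, Set.mem_union] at hm ⊢
        rcases hm with hm | hm
        · rcases ih _ c m K hm (ctx_mn hK (Or.inl rfl)) with h | h
          · exact Or.inl (Or.inl h)
          · exact Or.inr h
        · rcases ih _ d m K hm (ctx_mn hK (Or.inr rfl)) with h | h
          · exact Or.inl (Or.inr h)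
          · exact Or.inr h
      | ad b c d =>
        simp only [Instr.tgt] at ha
        subst ha
        simp only [Instr.cnt, Function.update_self, Set.mem_ofPred_eq] at hm ⊢
        obtain ⟨m1, hm1, m2, hm2, rfl⟩ := hm
        rcases ih _ c m1 (K + m2) hm1 (ctx_ad_left hK (cnt_mono P hD _ hm2)) with h1 | h1
        · rcases ih _ d m2 (K + m1) hm2 (ctx_ad_right hK (cnt_mono P hD _ hm1)) with h2 | h2
          · exact Or.inl ⟨m1, h1, m2, h2, rfl⟩
          · obtain ⟨b', m0, hm0, hQ, m', rfl, hc⟩ := h2
            refine Or.inr ⟨b', m0, hm0, hQ, m1 + m', by abel, ?_⟩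
            rwa [← add_assoc]
        · obtain ⟨b', m0, hm0, hQ, m', rfl, hc⟩ := h1
          refine Or.inr ⟨b', m0, hm0, hQ, m' + m2, by abel, ?_⟩
          have : K + (m' + m2) = K + m2 + m' := by abel
          rwa [this]
    · rw [Instr.cnt_of_ne _ _ ha] at hm ⊢
      exact ih _ a m K hm (ctx_of_ne hK ha)

end Pool.Agent.L5helper51.SV
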