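import Pool.Agent.L5helper51.SV.Walks

/-!
# Programs with few registers

The divide and conquer program on blocks of vertices.
-/

namespace Pool.Agent.L5helper51.SV

open Finset

variable {V R : Type*} [DecidableEq R]

theorem exec_nil (w : V × V → ℕ∞) (σ : R → ℕ∞) : exec w [] σ = σ := rfl

theorem exec_cons (w : V × V → ℕ∞) (i : Instr V R) (P : List (Instr V R)) (σ : R → ℕ∞) :
    exec w (i :: P) σ = exec w P (i.exec w σ) := rfl

theorem Instr.exec_of_ne (w : V × V → ℕ∞) (i : Instr V R) (σ : R → ℕ∞) {x : R} (h : x ≠ i.tgt) :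
    i.exec w σ x = σ x := by
  cases i <;> simp only [Instr.tgt] at h <;> simp only [Instr.exec, Function.update_of_ne h]

/-- all instructions write into registers of `A` -/
def Only (A : Set R) (P : List (Instr V R)) : Prop := ∀ i ∈ P, i.tgt ∈ A

theorem exec_only {A : Set R} (w : V × V → ℕ∞) {x : R} (hx : x ∉ A) : ∀ (P : List (Instr V R))
    (_ : Only A P) (σ : R → ℕ∞), exec w P σ x = σ x
  | [], _, σ => rfl
  | i :: P, h, σ => by
    rw [exec_cons, exec_only w hx P (fun j hj => h j (List.mem_cons_of_mem _ hj))]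
    exact Instr.exec_of_ne w i σ (fun h' => hx (h' ▸ h i (by simp)))

omit [DecidableEq R] in
theorem Only.append {A : Set R} {P Q : List (Instr V R)} (hP : Only A P) (hQ : Only A Q) :
    Only A (P ++ Q) := by
  intro i hi
  rcases List.mem_append.1 hi with h | h
  · exact hP i h
  · exact hQ i h

omit [DecidableEq R] in
theorem Only.mono {A B : Set R} {P : List (Instr V R)} (hP : Only A P) (h : A ⊆ B) : Only B P :=
  fun i hi => h (hP i hi)

omit [DecidableEq R] in
theorem Only.flatMap {κ : Type*} {A : Set R} {L : List κ} {f : κ → List (Instr V R)}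
    (h : ∀ k, Only A (f k)) : Only A (L.flatMap f) := by
  intro i hi
  obtain ⟨k, -, hk⟩ := List.mem_flatMap.1 hi
  exact h k i hk

/-! ### Vector operations -/

section vec

variable {ι : Type*}

/-- minimum of two vectors, along a list of indices -/
def vmin (dst s1 s2 : ι → R) (L : List ι) : List (Instr V R) :=
  L.map (fun a => Instr.mn (dst a) (s1 a) (s2 a))

omit [DecidableEq R] in
theorem vmin_only (dst s1 s2 : ι → R) (L : List ι) :
    Only (Set.range dst) (vmin (V := V) dst s1 s2 L) := by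
  intro i hi
  obtain ⟨a, -, rfl⟩ := List.mem_map.1 hi
  exact ⟨a, rfl⟩

theorem exec_vmin (w : V × V → ℕ∞) {dst s1 s2 : ι → R} (hd : Function.Injective dst)
    (h1 : ∀ a b, s1 a = dst b → a = b) (h2 : ∀ a b, s2 a = dst b → a = b) :
    ∀ (L : List ι) (_ : L.Nodup) (σ : R → ℕ∞), (∀ a ∈ L,
      exec w (vmin dst s1 s2 L) σ (dst a) = min (σ (s1 a)) (σ (s2 a))) ∧
      (∀ x, (∀ a ∈ L, x ≠ dst a) → exec w (vmin dst s1 s2 L) σ x = σ x)
  | [], _, σ => by simp [vmin, exec_nil]
  | c :: L, hL, σ => by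
    rw [List.nodup_cons] at hL
    obtain ⟨ih1, ih2⟩ := exec_vmin w hd h1 h2 L hL.2 ((Instr.mn (dst c) (s1 c) (s2 c)).exec w σ)
    have hdef : exec w (vmin dst s1 s2 (c :: L)) σ =
        exec w (vmin dst s1 s2 L) ((Instr.mn (dst c) (s1 c) (s2 c)).exec w σ) := rfl
    rw [hdef]
    constructor
    · intro a ha
      rcases List.mem_cons.1 ha with rfl | ha
      · rw [ih2 (dst a) (fun b hb h => hL.1 ((hd h) ▸ hb))]
        simp [Instr.exec]
      · rw [ih1 a ha]
        have hac : a ≠ c := fun h => hL.1 (h ▸ ha)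
        rw [Instr.exec_of_ne, Instr.exec_of_ne]
        · exact fun h => hac (h2 _ _ h)
        · exact fun h => hac (h1 _ _ h)
    · intro x hx
      rw [ih2 x (fun a ha => hx a (List.mem_cons_of_mem _ ha))]
      exact Instr.exec_of_ne _ _ _ (hx c (by simp))

/-- load constants into a vector -/
def vcon (dst : ι → R) (c : ι → ℕ∞) (L : List ι) : List (Instr V R) :=
  L.map (fun a => Instr.con (dst a) (c a))

omit [DecidableEq R] in
theorem vcon_only (dst : ι → R) (c : ι → ℕ∞) (L : List ι) :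
    Only (Set.range dst) (vcon (V := V) dst c L) := by
  intro i hi
  obtain ⟨a, -, rfl⟩ := List.mem_map.1 hi
  exact ⟨a, rfl⟩

theorem exec_vcon (w : V × V → ℕ∞) {dst : ι → R} (hd : Function.Injective dst) (c : ι → ℕ∞) :
    ∀ (L : List ι) (_ : L.Nodup) (σ : R → ℕ∞),
      (∀ a ∈ L, exec w (vcon dst c L) σ (dst a) = c a) ∧
      (∀ x, (∀ a ∈ L, x ≠ dst a) → exec w (vcon dst c L) σ x = σ x)
  | [], _, σ => by simp [vcon, exec_nil]
  | b :: L, hL, σ => by
    rw [List.nodup_cons] at hL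
    obtain ⟨ih1, ih2⟩ := exec_vcon w hd c L hL.2 ((Instr.con (dst b) (c b)).exec w σ)
    have hdef : exec w (vcon dst c (b :: L)) σ =
        exec w (vcon dst c L) ((Instr.con (dst b) (c b)).exec w σ) := rfl
    rw [hdef]
    constructor
    · intro a ha
      rcases List.mem_cons.1 ha with rfl | ha
      · rw [ih2 (dst a) (fun b hb h => hL.1 ((hd h) ▸ hb))]
        simp [Instr.exec]
      · exact ih1 a ha
    · intro x hx
      rw [ih2 x (fun a ha => hx a (List.mem_cons_of_mem _ ha))]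
      exact Instr.exec_of_ne _ _ _ (hx b (by simp))

theorem iInf_mem_cons {κ : Type*} (k : κ) (L : List κ) (f : κ → ℕ∞) :
    ⨅ x ∈ k :: L, f x = min (f k) (⨅ x ∈ L, f x) := by
  apply le_antisymm
  · apply le_min
    · exact iInf₂_le k (by simp)
    · exact le_iInf₂ fun x hx => iInf₂_le x (List.mem_cons_of_mem _ hx)
  · refine le_iInf₂ fun x hx => ?_
    rcases List.mem_cons.1 hx with rfl | hx
    · exact min_le_left _ _
    · exact (min_le_right _ _).trans (iInf₂_le x hx)

/-- loops which accumulate minima in the registers `Y` and keep the registers `prot` -/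
theorem exec_loop {κ : Type*} (w : V × V → ℕ∞) (Y : ι → R) (prot : Set R)
    (body : κ → List (Instr V R)) (val : κ → ι → ℕ∞) (σ0 : R → ℕ∞)
    (hbody : ∀ k τ, (∀ x ∈ prot, τ x = σ0 x) →
      (∀ b, exec w (body k) τ (Y b) = min (τ (Y b)) (val k b)) ∧
      (∀ x ∈ prot, exec w (body k) τ x = σ0 x)) :
    ∀ (L : List κ) (τ : R → ℕ∞), (∀ x ∈ prot, τ x = σ0 x) →
      ∀ b, exec w (L.flatMap body) τ (Y b) = min (τ (Y b)) (⨅ k ∈ L, val k b)
  | [], τ, _, b => by simp [exec_nil]
  | k :: L, τ, hτ, b => by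
    rw [List.flatMap_cons, exec_append]
    obtain ⟨h1, h2⟩ := hbody k τ hτ
    rw [exec_loop w Y prot body val σ0 hbody L _ h2 b, h1, iInf_mem_cons, min_assoc]

end vec

/-! ### The recursive program -/

/-- registers: two vectors for each level and one further register -/
structure Regs (R ι : Type*) (n : ℕ) where
  /-- input vectors -/
  X : ℕ → ι → R
  /-- output vectors -/
  Y : ℕ → ι → R
  /-- scratch register -/
  tmp : R
  X_inj : ∀ j j' a a', j ≤ n → j' ≤ n → X j a = X j' a' → j = j' ∧ a = a'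
  Y_inj : ∀ j j' a a', j ≤ n → j' ≤ n → Y j a = Y j' a' → j = j' ∧ a = a'
  XY : ∀ j j' a a', X j a ≠ Y j' a'
  X_tmp : ∀ j a, X j a ≠ tmp
  Y_tmp : ∀ j a, Y j a ≠ tmp

namespace Regs

variable {ι : Type*} {n : ℕ} (ρ : Regs R ι n)

/-- the registers used on the levels up to `i` -/
def A (i : ℕ) : Set R := {x | x = ρ.tmp ∨ ∃ j ≤ i, ∃ a, x = ρ.X j a ∨ x = ρ.Y j a}

omit [DecidableEq R] in
theorem A_mono {i i' : ℕ} (h : i ≤ i') : ρ.A i ⊆ ρ.A i' := by
  rintro x (hx | ⟨j, hj, a, hx⟩)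
  · exact Or.inl hx
  · exact Or.inr ⟨j, hj.trans h, a, hx⟩

omit [DecidableEq R] in
theorem X_mem {i j : ℕ} (h : j ≤ i) (a : ι) : ρ.X j a ∈ ρ.A i := Or.inr ⟨j, h, a, Or.inl rfl⟩

omit [DecidableEq R] in
theorem Y_mem {i j : ℕ} (h : j ≤ i) (a : ι) : ρ.Y j a ∈ ρ.A i := Or.inr ⟨j, h, a, Or.inr rfl⟩

omit [DecidableEq R] in
theorem X_notMem {i : ℕ} (h : i + 1 ≤ n) (a : ι) : ρ.X (i + 1) a ∉ ρ.A i := by
  rintro (hx | ⟨j, hj, b, hx | hx⟩)
  · exact ρ.X_tmp _ _ hx
  · have := (ρ.X_inj _ _ _ _ h (by omega) hx).1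
    omega
  · exact ρ.XY _ _ _ _ hx

omit [DecidableEq R] in
theorem Y_notMem {i : ℕ} (h : i + 1 ≤ n) (a : ι) : ρ.Y (i + 1) a ∉ ρ.A i := by
  rintro (hx | ⟨j, hj, b, hx | hx⟩)
  · exact ρ.Y_tmp _ _ hx
  · exact ρ.XY _ _ _ _ hx.symm
  · have := (ρ.Y_inj _ _ _ _ h (by omega) hx).1
    omega

variable [Fintype ι] [DecidableEq V] {κ : Type*}

/-- load the weight of a pair, `0` on the diagonal -/
def ld (ρ : Regs R ι n) (x y : V) : Instr V R := if x = y then .con ρ.tmp 0 else .inp ρ.tmp (x, y)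

/-- The program on level `i` computes `Y b = min over a of X a + D i (u a) (v b)`. -/
noncomputable def F (ρ : Regs R ι n) (Cs : List κ) (blk : κ → ι → V) :
    ℕ → (ι → V) → (ι → V) → List (Instr V R)
  | 0, u, v => vcon (ρ.Y 0) (fun _ => ⊤) univ.toList ++
      (univ : Finset (ι × ι)).toList.flatMap (fun ab =>
        [ρ.ld (u ab.1) (v ab.2), .ad ρ.tmp ρ.tmp (ρ.X 0 ab.1), .mn (ρ.Y 0 ab.2) (ρ.Y 0 ab.2) ρ.tmp])
  | i + 1, u, v => vcon (ρ.Y (i + 1)) (fun _ => ⊤) univ.toList ++
      Cs.flatMap (fun C =>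
        vmin (ρ.X i) (ρ.X (i + 1)) (ρ.X (i + 1)) univ.toList ++ F ρ Cs blk i u (blk C) ++
        vmin (ρ.X i) (ρ.Y i) (ρ.Y i) univ.toList ++ F ρ Cs blk i (blk C) v ++
        vmin (ρ.Y (i + 1)) (ρ.Y (i + 1)) (ρ.Y i) univ.toList)

omit [DecidableEq R] [Fintype ι] in
theorem ld_tgt (x y : V) : (ρ.ld x y).tgt = ρ.tmp := by
  rw [ld]; split_ifs <;> rfl

omit [Fintype ι] in
theorem exec_ld (w : V × V → ℕ∞) (σ : R → ℕ∞) (x y : V) :
    (ρ.ld x y).exec w σ ρ.tmp = D w 0 x y := by
  rw [ld, D]; split_ifs <;> simp [Instr.exec]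

omit [DecidableEq R] in
theorem F_only (Cs : List κ) (blk : κ → ι → V) : ∀ (i : ℕ) (u v : ι → V),
    Only (ρ.A i) (ρ.F Cs blk i u v)
  | 0, u, v => by
    rw [F]
    apply Only.append
    · exact (vcon_only _ _ _).mono (by rintro x ⟨a, rfl⟩; exact ρ.Y_mem le_rfl a)
    · apply Only.flatMap
      intro ab i hi
      simp only [List.mem_cons, List.not_mem_nil, or_false] at hi
      rcases hi with rfl | rfl | rfl
      · rw [ld_tgt]; exact Or.inl rfl
      · exact Or.inl rfl
      · exact ρ.Y_mem le_rfl _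
  | i + 1, u, v => by
    rw [F]
    apply Only.append
    · exact (vcon_only _ _ _).mono (by rintro x ⟨a, rfl⟩; exact ρ.Y_mem le_rfl a)
    · apply Only.flatMap
      intro C
      refine Only.append (Only.append (Only.append (Only.append ?_ ?_) ?_) ?_) ?_
      · exact (vmin_only _ _ _ _).mono (by rintro x ⟨a, rfl⟩; exact ρ.X_mem (Nat.le_succ i) a)
      · exact (F_only Cs blk i _ _).mono (ρ.A_mono (Nat.le_succ i))
      · exact (vmin_only _ _ _ _).mono (by rintro x ⟨a, rfl⟩; exact ρ.X_mem (Nat.le_succ i) a)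
      · exact (F_only Cs blk i _ _).mono (ρ.A_mono (Nat.le_succ i))
      · exact (vmin_only _ _ _ _).mono (by rintro x ⟨a, rfl⟩; exact ρ.Y_mem le_rfl a)

theorem exec_F (w : V × V → ℕ∞) {Cs : List κ} {blk : κ → ι → V}
    (hcov : ∀ z : V, ∃ C ∈ Cs, ∃ a, blk C a = z) : ∀ (i : ℕ) (_ : i ≤ n) (u v : ι → V)
    (σ : R → ℕ∞) (b : ι), exec w (ρ.F Cs blk i u v) σ (ρ.Y i b) =
      ⨅ a, (σ (ρ.X i a) + D w i (u a) (v b))
  | 0, hn, u, v, σ, b => by
    classical
    have hYinj : Function.Injective (ρ.Y 0) := fun a a' h => (ρ.Y_inj _ _ _ _ hn hn h).2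
    rw [F, exec_append]
    obtain ⟨h1, h2⟩ := exec_vcon w hYinj (fun _ => ⊤) univ.toList (nodup_toList _) σ
    set σ1 := exec w (vcon (ρ.Y 0) (fun _ => ⊤) univ.toList) σ with hσ1
    have hX : ∀ x ∈ Set.range (ρ.X 0), σ1 x = σ x := by
      rintro x ⟨a, rfl⟩
      exact h2 _ (fun a' _ => ρ.XY _ _ _ _)
    rw [exec_loop w (ρ.Y 0) (Set.range (ρ.X 0)) _
      (fun ab b' => if b' = ab.2 then σ (ρ.X 0 ab.1) + D w 0 (u ab.1) (v ab.2) else ⊤) σ ?_ _ σ1 hX b]
    · rw [h1 b (by simp), min_eq_right le_top]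
      apply le_antisymm
      · refine le_iInf fun a => ?_
        refine (iInf₂_le (a, b) (by simp)).trans ?_
        simp
      · refine le_iInf₂ fun ab _ => ?_
        by_cases h : b = ab.2
        · rw [if_pos h, h]
          exact iInf_le _ ab.1
        · rw [if_neg h]
          exact le_top
    · rintro ⟨a, c⟩ τ hτ
      simp only
      have htY : ∀ b', ρ.Y 0 b' ≠ ρ.tmp := ρ.Y_tmp 0
      have htX : ∀ b', ρ.X 0 b' ≠ ρ.tmp := ρ.X_tmp 0
      constructor
      · intro b'
        rw [exec_cons, exec_cons, exec_cons, exec_nil]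
        by_cases hb : b' = c
        · subst hb
          rw [if_pos rfl]
          have e1 : (ρ.ld (u a) (v b')).exec w τ ρ.tmp = D w 0 (u a) (v b') := ρ.exec_ld w τ _ _
          have e2 : (ρ.ld (u a) (v b')).exec w τ (ρ.Y 0 b') = τ (ρ.Y 0 b') :=
            Instr.exec_of_ne _ _ _ (by rw [ld_tgt]; exact htY _)
          have e3 : (ρ.ld (u a) (v b')).exec w τ (ρ.X 0 a) = σ (ρ.X 0 a) :=
            (Instr.exec_of_ne _ _ _ (by rw [ld_tgt]; exact htX _)).trans (hτ _ ⟨a, rfl⟩)
          generalize (ρ.ld (u a) (v b')).exec w τ = τ0 at e1 e2 e3 ⊢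
          simp only [Instr.exec, Function.update_self, Function.update_of_ne (htY _)]
          rw [e1, e2, e3, add_comm (D w 0 _ _)]
        · rw [if_neg hb, min_eq_left le_top]
          rw [Instr.exec_of_ne _ _ _ (by
            simp only [Instr.tgt]
            exact fun h => hb (hYinj h))]
          rw [Instr.exec_of_ne _ _ _ (by simp only [Instr.tgt]; exact htY _),
            Instr.exec_of_ne _ _ _ (by rw [ld_tgt]; exact htY _)]
      · rintro x ⟨a', rfl⟩
        rw [exec_cons, exec_cons, exec_cons, exec_nil]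
        rw [Instr.exec_of_ne _ _ _ (by simp only [Instr.tgt]; exact ρ.XY _ _ _ _),
          Instr.exec_of_ne _ _ _ (by simp only [Instr.tgt]; exact htX _),
          Instr.exec_of_ne _ _ _ (by rw [ld_tgt]; exact htX _)]
        exact hτ _ ⟨a', rfl⟩
  | i + 1, hn, u, v, σ, b => by
    have hi : i ≤ n := by omega
    have hYinj : Function.Injective (ρ.Y (i + 1)) := fun a a' h => (ρ.Y_inj _ _ _ _ hn hn h).2
    have hXinj : Function.Injective (ρ.X i) := fun a a' h => (ρ.X_inj _ _ _ _ hi hi h).2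
    rw [F, exec_append]
    obtain ⟨h1, h2⟩ := exec_vcon w hYinj (fun _ => ⊤) univ.toList (nodup_toList _) σ
    set σ1 := exec w (vcon (ρ.Y (i + 1)) (fun _ => ⊤) univ.toList) σ with hσ1
    have hX : ∀ x ∈ Set.range (ρ.X (i + 1)), σ1 x = σ x := by
      rintro x ⟨a, rfl⟩
      exact h2 _ (fun a' _ => ρ.XY _ _ _ _)
    rw [exec_loop w (ρ.Y (i + 1)) (Set.range (ρ.X (i + 1))) _
      (fun C b' => ⨅ c, ((⨅ a, (σ (ρ.X (i + 1) a) + D w i (u a) (blk C c))) +
        D w i (blk C c) (v b'))) σ ?_ _ σ1 hX b]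
    · rw [h1 b (by simp), min_eq_right le_top]
      apply le_antisymm
      · refine le_iInf fun a => ?_
        rw [D, ENat.add_iInf]
        refine le_iInf fun z => ?_
        obtain ⟨C, hC, c, rfl⟩ := hcov z
        refine (iInf₂_le C hC).trans ((iInf_le _ c).trans ?_)
        rw [← add_assoc]
        exact add_le_add (iInf_le _ a) le_rfl
      · refine le_iInf₂ fun C _ => le_iInf fun c => ?_
        rw [ENat.iInf_add]
        refine le_iInf fun a => (iInf_le _ a).trans ?_
        rw [add_assoc]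
        refine add_le_add le_rfl ?_
        rw [D]
        exact iInf_le _ (blk C c)
    · intro C τ hτ
      rw [exec_append, exec_append, exec_append, exec_append]
      -- copy
      obtain ⟨c1, c2⟩ := exec_vmin w (dst := ρ.X i) (s1 := ρ.X (i + 1)) (s2 := ρ.X (i + 1)) hXinj
        (fun a a' h => (ρ.X_inj _ _ _ _ hn hi h).2) (fun a a' h => (ρ.X_inj _ _ _ _ hn hi h).2)
        univ.toList (nodup_toList _) τ
      set τ1 := exec w (vmin (ρ.X i) (ρ.X (i + 1)) (ρ.X (i + 1)) univ.toList) τ with hτ1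
      set τ2 := exec w (ρ.F Cs blk i u (blk C)) τ1 with hτ2
      obtain ⟨c3, c4⟩ := exec_vmin w (dst := ρ.X i) (s1 := ρ.Y i) (s2 := ρ.Y i) hXinj
        (fun a a' h => absurd h.symm (ρ.XY _ _ _ _)) (fun a a' h => absurd h.symm (ρ.XY _ _ _ _))
        univ.toList (nodup_toList _) τ2
      set τ3 := exec w (vmin (ρ.X i) (ρ.Y i) (ρ.Y i) univ.toList) τ2 with hτ3
      set τ4 := exec w (ρ.F Cs blk i (blk C) v) τ3 with hτ4
      obtain ⟨c5, c6⟩ := exec_vmin w (dst := ρ.Y (i + 1)) (s1 := ρ.Y (i + 1)) (s2 := ρ.Y i) hYinj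
        (fun a a' h => hYinj h) (fun a a' h => by
          have := (ρ.Y_inj _ _ _ _ hi hn h).1
          omega)
        univ.toList (nodup_toList _) τ4
      have hframe : ∀ x, x ∉ ρ.A i → τ4 x = τ x := by
        intro x hx
        rw [hτ4, exec_only w hx _ (ρ.F_only Cs blk i _ _)]
        rw [c4 x (fun a _ h => hx (h ▸ ρ.X_mem le_rfl a))]
        rw [hτ2, exec_only w hx _ (ρ.F_only Cs blk i _ _)]
        exact c2 x (fun a _ h => hx (h ▸ ρ.X_mem le_rfl a))
      constructor
      · intro b'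
        rw [c5 b' (by simp), hframe _ (ρ.Y_notMem hn b')]
        congr 1
        rw [hτ4, exec_F w hcov i hi (blk C) v τ3 b']
        apply iInf_congr
        intro c
        rw [c3 c (by simp), min_self, hτ2, exec_F w hcov i hi u (blk C) τ1 c]
        congr 1
        apply iInf_congr
        intro a
        rw [c1 a (by simp), min_self, hτ _ ⟨a, rfl⟩]
      · rintro x ⟨a, rfl⟩
        rw [c6 _ (fun a' _ => ρ.XY _ _ _ _), hframe _ (ρ.X_notMem hn a)]
        exact hτ _ ⟨a, rfl⟩

omit [DecidableEq R] in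
/-- lengths -/
theorem length_F_zero (Cs : List κ) (blk : κ → ι → V) (u v : ι → V) :
    (ρ.F Cs blk 0 u v).length = Fintype.card ι + 3 * (Fintype.card ι * Fintype.card ι) := by
  rw [F, List.length_append, vcon, List.length_map, length_toList, card_univ, List.length_flatMap]
  simp [mul_comm]

omit [DecidableEq R] in
theorem length_F_succ (Cs : List κ) (blk : κ → ι → V) (i : ℕ) {c : ℕ}
    (h : ∀ u v : ι → V, (ρ.F Cs blk i u v).length = c) (u v : ι → V) :
    (ρ.F Cs blk (i + 1) u v).length =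
      Fintype.card ι + Cs.length * (3 * Fintype.card ι + 2 * c) := by
  rw [F, List.length_append, vcon, List.length_map, length_toList, card_univ, List.length_flatMap]
  simp only [List.length_append, vmin, List.length_map, length_toList, card_univ, h, List.map_const',
    List.sum_replicate, smul_eq_mul]
  ring

end Regs

end Pool.Agent.L5helper51.SV
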