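import Pool.Agent.L5helper51.SV.Prog

/-!
# The upper bound
-/

namespace Pool.Agent.L5helper51.SV

open Finset

variable {V : Type*} [DecidableEq V] {ι : Type*}

/-- the vector of the upper estimates after `m` hops -/
noncomputable def hop (w : V × V → ℕ∞) (i : ℕ) (u : ι → V) (s : V) : ℕ → ι → ℕ∞
  | 0, a => if u a = s then 0 else ⊤
  | m + 1, b => ⨅ a, (hop w i u s m a + D w i (u a) (u b))

theorem hop_sound (w : V × V → ℕ∞) (i : ℕ) (u : ι → V) (s : V) : ∀ (m : ℕ) (a : ι),
    dist0 w s (u a) ≤ hop w i u s m a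
  | 0, a => by
    rw [hop]
    split_ifs with h
    · rw [h, dist0_self]
    · exact le_top
  | m + 1, b => by
    rw [hop]
    refine le_iInf fun a => ?_
    exact (dist0_triangle w s (u a) (u b)).trans
      (add_le_add (hop_sound w i u s m a) (dist0_le_D w i _ _))

theorem hop_congr (w : V × V → ℕ∞) (i : ℕ) (u : ι → V) (s : V) (m : ℕ) {a b : ι} (h : u a = u b) :
    hop w i u s m a = hop w i u s m b := by
  cases m with
  | zero => rw [hop, hop, h]
  | succ m => rw [hop, hop]; simp only [h]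

theorem hop_succ_le (w : V × V → ℕ∞) (i : ℕ) (u : ι → V) (s : V) (m : ℕ) (a b : ι) :
    hop w i u s (m + 1) b ≤ hop w i u s m a + D w i (u a) (u b) := by
  rw [hop]; exact iInf_le _ a

/-- the vertices of a tuple together with `s` and `t` -/
def tup {q : ℕ} (s t : V) (σ : Fin q → V) : Fin q ⊕ Bool → V
  | .inl k => σ k
  | .inr false => s
  | .inr true => t

theorem hop_complete (w : V × V → ℕ∞) {i N q : ℕ} {s t : V} (σ : Fin q → V) (p : ℕ → V) {n : ℕ}
    (h0 : p 0 = s) (hn : p n = t) (hnN : n < N)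
    (hhit : ∀ j, j + 2 ^ i ≤ n → ∃ i', j + 1 ≤ i' ∧ i' ≤ j + 2 ^ i ∧ ∃ k, σ k = p i') :
    hop w i (tup s t σ) s N (.inr true) ≤ ∑ j ∈ range n, w (p j, p (j + 1)) := by
  have key : ∀ m, ∃ j, j ≤ n ∧ min m n ≤ j ∧ ∃ a, tup s t σ a = p j ∧
      hop w i (tup s t σ) s m a ≤ ∑ k ∈ range j, w (p k, p (k + 1)) := by
    intro m
    induction m with
    | zero =>
      refine ⟨0, by omega, by omega, .inr false, h0.symm, ?_⟩
      rw [hop, if_pos (show tup s t σ (.inr false) = s from rfl)]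
      exact zero_le
    | succ m ih =>
      obtain ⟨j, hj, hj', a, ha, hle⟩ := ih
      have step : ∀ (j' : ℕ) (b : Fin q ⊕ Bool), j ≤ j' → j' ≤ j + 2 ^ i → tup s t σ b = p j' →
          hop w i (tup s t σ) s (m + 1) b ≤ ∑ k ∈ range j', w (p k, p (k + 1)) := by
        intro j' b h1 h2 hb
        obtain ⟨d, rfl⟩ := Nat.exists_eq_add_of_le h1
        refine (hop_succ_le w i _ s m a b).trans ?_
        rw [sum_range_add, ha, hb]
        exact add_le_add hle (D_path w p i j d (by omega))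
      by_cases hjn : j = n
      · exact ⟨j, hj, by omega, a, ha, step j a le_rfl (Nat.le_add_right _ _) ha⟩
      · by_cases h1 : n ≤ j + 2 ^ i
        · exact ⟨n, le_rfl, by omega, .inr true, hn.symm, step n _ hj h1 hn.symm⟩
        · obtain ⟨j', h2, h3, k, hk⟩ := hhit j (by omega)
          exact ⟨j', by omega, by omega, .inl k, hk, step j' _ (by omega) h3 hk⟩
  obtain ⟨j, hj, hj', a, ha, hle⟩ := key N
  have : j = n := by omega
  subst this
  rw [hop_congr w i (tup s t σ) s N (a := .inr true) (b := a) (by rw [ha, hn]; rfl)]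
  exact hle

/-! ### The registers -/

/-- The register file. -/
def regs (n : ℕ) (ι : Type*) : Regs ((Fin (n + 1) × Bool × ι) ⊕ Bool) ι n where
  X j a := .inl (Fin.ofNat (n + 1) j, false, a)
  Y j a := .inl (Fin.ofNat (n + 1) j, true, a)
  tmp := .inr false
  X_inj j j' a a' hj hj' h := by
    simp only [Sum.inl.injEq, Prod.mk.injEq, Fin.ext_iff, Fin.ofNat_eq_cast, Fin.val_natCast,
      true_and] at h
    rw [Nat.mod_eq_of_lt (by omega), Nat.mod_eq_of_lt (by omega)] at h
    exact h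
  Y_inj j j' a a' hj hj' h := by
    simp only [Sum.inl.injEq, Prod.mk.injEq, Fin.ext_iff, Fin.ofNat_eq_cast, Fin.val_natCast,
      true_and] at h
    rw [Nat.mod_eq_of_lt (by omega), Nat.mod_eq_of_lt (by omega)] at h
    exact h
  XY j j' a a' := by simp
  X_tmp j a := by simp
  Y_tmp j a := by simp

theorem out_notMem (n i : ℕ) :
    (.inr true : (Fin (n + 1) × Bool × ι) ⊕ Bool) ∉ (regs n ι).A i := by
  rintro (h | ⟨j, -, a, h | h⟩)
  · simp [regs] at h
  · simp [regs] at h
  · simp [regs] at h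

section prog

variable [Fintype ι] [DecidableEq ι] {κ : Type*}

/-- one hop -/
noncomputable def hopP (i : ℕ) (Cs : List κ) (blk : κ → ι → V) (u : ι → V) :
    List (Instr V ((Fin (i + 1) × Bool × ι) ⊕ Bool)) :=
  (regs i ι).F Cs blk i u u ++ vmin ((regs i ι).X i) ((regs i ι).Y i) ((regs i ι).Y i) univ.toList

/-- the program for one tuple of vertices -/
noncomputable def tupP (i : ℕ) (Cs : List κ) (blk : κ → ι → V) (u : ι → V) (s : V) (aT : ι)
    (N : ℕ) : List (Instr V ((Fin (i + 1) × Bool × ι) ⊕ Bool)) :=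
  vcon ((regs i ι).X i) (fun a => if u a = s then 0 else ⊤) univ.toList ++
    (List.replicate N (hopP i Cs blk u)).flatten ++ [.mn (.inr true) (.inr true) ((regs i ι).X i aT)]

theorem exec_hopP (w : V × V → ℕ∞) (i : ℕ) {Cs : List κ} {blk : κ → ι → V}
    (hcov : ∀ z : V, ∃ C ∈ Cs, ∃ a, blk C a = z) (u : ι → V)
    (σ : (Fin (i + 1) × Bool × ι) ⊕ Bool → ℕ∞) :
    (∀ b, exec w (hopP i Cs blk u) σ ((regs i ι).X i b) =
      ⨅ a, (σ ((regs i ι).X i a) + D w i (u a) (u b))) ∧
    exec w (hopP i Cs blk u) σ (.inr true) = σ (.inr true) := by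
  set ρ := regs i ι with hρ
  have hXinj : Function.Injective (ρ.X i) := fun a a' h => (ρ.X_inj _ _ _ _ le_rfl le_rfl h).2
  rw [hopP, exec_append]
  obtain ⟨c3, c4⟩ := exec_vmin w (dst := ρ.X i) (s1 := ρ.Y i) (s2 := ρ.Y i) hXinj
    (fun a a' h => absurd h.symm (ρ.XY _ _ _ _)) (fun a a' h => absurd h.symm (ρ.XY _ _ _ _))
    univ.toList (nodup_toList _) (exec w (ρ.F Cs blk i u u) σ)
  constructor
  · intro b
    rw [c3 b (by simp), min_self]
    exact ρ.exec_F w hcov i le_rfl u u σ b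
  · rw [c4 _ (fun a _ h => by simp [hρ, regs] at h)]
    exact exec_only w (out_notMem i i) _ (ρ.F_only Cs blk i u u) σ

theorem exec_tupP (w : V × V → ℕ∞) (i : ℕ) {Cs : List κ} {blk : κ → ι → V}
    (hcov : ∀ z : V, ∃ C ∈ Cs, ∃ a, blk C a = z) (u : ι → V) (s : V) (aT : ι) (N : ℕ)
    (σ : (Fin (i + 1) × Bool × ι) ⊕ Bool → ℕ∞) :
    exec w (tupP i Cs blk u s aT N) σ (.inr true) =
      min (σ (.inr true)) (hop w i u s N aT) := by
  set ρ := regs i ι with hρ
  have hXinj : Function.Injective (ρ.X i) := fun a a' h => (ρ.X_inj _ _ _ _ le_rfl le_rfl h).2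
  rw [tupP, exec_append, exec_append]
  obtain ⟨h1, h2⟩ := exec_vcon w hXinj (fun a => if u a = s then 0 else ⊤) univ.toList
    (nodup_toList _) σ
  set σ1 := exec w (vcon (ρ.X i) (fun a => if u a = s then 0 else ⊤) univ.toList) σ with hσ1
  have hout : σ1 (.inr true) = σ (.inr true) := h2 _ (fun a _ h => by simp [hρ, regs] at h)
  have key : ∀ m, (∀ a, exec w (List.replicate m (hopP i Cs blk u)).flatten σ1 (ρ.X i a) =
      hop w i u s m a) ∧
      exec w (List.replicate m (hopP i Cs blk u)).flatten σ1 (.inr true) = σ (.inr true) := by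
    intro m
    induction m with
    | zero =>
      refine ⟨fun a => ?_, by simpa [exec_nil] using hout⟩
      rw [hop]
      simpa [exec_nil] using h1 a (by simp)
    | succ m ih =>
      rw [List.replicate_succ', List.flatten_append, List.flatten_cons, List.flatten_nil,
        List.append_nil, exec_append]
      obtain ⟨e1, e2⟩ := exec_hopP w i hcov u (exec w (List.replicate m (hopP i Cs blk u)).flatten σ1)
      refine ⟨fun a => ?_, e2.trans ih.2⟩
      rw [e1 a, hop]
      apply iInf_congr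
      intro b
      rw [ih.1 b]
  obtain ⟨k1, k2⟩ := key N
  rw [exec_cons, exec_nil]
  simp only [Instr.exec, Function.update_self]
  rw [k2, k1 aT]

omit [DecidableEq ι] in
theorem length_hopP (i : ℕ) (Cs : List κ) (blk : κ → ι → V) {c : ℕ}
    (h : ∀ u v : ι → V, ((regs i ι).F Cs blk i u v).length = c) (u : ι → V) :
    (hopP i Cs blk u).length = c + Fintype.card ι := by
  rw [hopP, List.length_append, h, vmin, List.length_map, length_toList, card_univ]

omit [DecidableEq ι] in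
theorem length_tupP (i : ℕ) (Cs : List κ) (blk : κ → ι → V) {c : ℕ}
    (h : ∀ u v : ι → V, ((regs i ι).F Cs blk i u v).length = c) (u : ι → V) (s : V) (aT : ι)
    (N : ℕ) : (tupP i Cs blk u s aT N).length =
      Fintype.card ι + N * (c + Fintype.card ι) + 1 := by
  rw [tupP, List.length_append, List.length_append, vcon, List.length_map, length_toList, card_univ,
    List.length_flatten, List.map_replicate, List.sum_replicate, length_hopP i Cs blk h]
  simp

end prog

theorem exists_length_F [Fintype ι] {κ : Type*} {R : Type*} {n : ℕ} (ρ : Regs R ι n) (Cs : List κ)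
    (blk : κ → ι → V) (hCs : 0 < Cs.length) (hι : 0 < Fintype.card ι) : ∀ i : ℕ, ∃ c : ℕ,
      (∀ u v : ι → V, (ρ.F Cs blk i u v).length = c) ∧
      c ≤ 4 * Fintype.card ι ^ 2 * (3 * Cs.length) ^ i ∧ Fintype.card ι ≤ c
  | 0 => by
    refine ⟨_, fun u v => ρ.length_F_zero Cs blk u v, ?_, Nat.le_add_right _ _⟩
    rw [pow_zero, mul_one]
    nlinarith
  | i + 1 => by
    obtain ⟨c, hc, hc', hc''⟩ := exists_length_F ρ Cs blk hCs hι i
    refine ⟨_, fun u v => ρ.length_F_succ Cs blk i hc u v, ?_, Nat.le_add_right _ _⟩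
    have h1 : 4 * Fintype.card ι ≤ 4 * Fintype.card ι ^ 2 * (3 * Cs.length) ^ i := by
      have h2 : Fintype.card ι * 1 ≤ Fintype.card ι ^ 2 * (3 * Cs.length) ^ i := by
        rw [pow_two, mul_assoc]
        apply Nat.mul_le_mul_left
        exact Nat.one_le_iff_ne_zero.2 (by positivity)
      rw [mul_assoc]
      omega
    have h3 : Fintype.card ι ≤ Cs.length * Fintype.card ι := Nat.le_mul_of_pos_left _ hCs
    calc Fintype.card ι + Cs.length * (3 * Fintype.card ι + 2 * c)
        ≤ Cs.length * Fintype.card ι + Cs.length * (3 * Fintype.card ι + 2 * c) := by omega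
      _ = Cs.length * (4 * Fintype.card ι + 2 * c) := by ring
      _ ≤ Cs.length * (4 * Fintype.card ι ^ 2 * (3 * Cs.length) ^ i +
            2 * (4 * Fintype.card ι ^ 2 * (3 * Cs.length) ^ i)) := by
          apply Nat.mul_le_mul_left
          omega
      _ = 4 * Fintype.card ι ^ 2 * (3 * Cs.length) ^ (i + 1) := by ring

/-- **The upper bound.** -/
theorem upper_bound {V : Type} [Fintype V] {s t : V} (hst : s ≠ t) {i : ℕ}
    (hi : 2 ^ i ≤ Fintype.card V) :
    ∃ (R : Type) (_ : Fintype R) (_ : DecidableEq R) (P : List (Instr V R)) (out : R),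
      (∀ w : V × V → ℕ∞, value P out w = dist w s t) ∧
      Fintype.card R ≤ 7 * (i + 1) * (Nat.log 2 (Fintype.card V) + 2) * (Fintype.card V / 2 ^ i) ∧
      P.length ≤ 128 * Fintype.card V ^ 9 * 2 ^ (i ^ 2) := by
  classical
  have : Nonempty V := ⟨s⟩
  have hhit0 := hitting (V := V) (h := 2 ^ i) (by positivity) hi
  obtain ⟨N, hN⟩ : ∃ N, Fintype.card V = N := ⟨_, rfl⟩
  rw [hN] at hhit0 hi ⊢
  have hN2 : 2 ≤ N := by
    have : 1 < Fintype.card V := Fintype.one_lt_card_iff.2 ⟨s, t, hst⟩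
    omega
  obtain ⟨q, hq⟩ : ∃ q, q = (Nat.log 2 N + 2) * (N / 2 ^ i + 1) := ⟨_, rfl⟩
  rw [← hq] at hhit0
  obtain ⟨L, hL, hL'⟩ := hhit0
  -- the blocks
  have hcardι : Fintype.card (Fin q ⊕ Bool) = q + 2 := by simp
  have hsurj : ∃ f : Fin (2 ^ i) × (Fin q ⊕ Bool) → V, Function.Surjective f := by
    have h1 : Fintype.card V ≤ Fintype.card (Fin (2 ^ i) × (Fin q ⊕ Bool)) := by
      rw [Fintype.card_prod, Fintype.card_fin, hcardι, hq, hN]
      have h2 := Nat.lt_div_mul_add (a := N) (b := 2 ^ i) (by positivity)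
      have h3 : N / 2 ^ i * 2 ^ i + 2 ^ i =
        2 ^ i * (1 * (N / 2 ^ i + 1)) := by ring
      have h4 : 2 ^ i * (1 * (N / 2 ^ i + 1)) ≤
        2 ^ i * ((Nat.log 2 N + 2) * (N / 2 ^ i + 1)) := by
        apply Nat.mul_le_mul_left
        apply Nat.mul_le_mul_right
        omega
      rw [mul_add]
      omega
    obtain ⟨e⟩ := Function.Embedding.nonempty_of_card_le h1
    exact ⟨Function.invFun e, Function.invFun_surjective e.injective⟩
  obtain ⟨f, hf⟩ := hsurj
  set blk : Fin (2 ^ i) → (Fin q ⊕ Bool) → V := fun C a => f (C, a) with hblk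
  set Cs : List (Fin (2 ^ i)) := univ.toList with hCs
  have hcov : ∀ z : V, ∃ C ∈ Cs, ∃ a, blk C a = z := by
    intro z
    obtain ⟨⟨C, a⟩, hCa⟩ := hf z
    exact ⟨C, by simp [hCs], a, hCa⟩
  have hCslen : Cs.length = 2 ^ i := by simp [hCs]
  set P : List (Instr V ((Fin (i + 1) × Bool × (Fin q ⊕ Bool)) ⊕ Bool)) :=
    L.flatMap (fun σ => tupP i Cs blk (tup s t σ) s (.inr true) N) with hP
  refine ⟨(Fin (i + 1) × Bool × (Fin q ⊕ Bool)) ⊕ Bool, inferInstance, inferInstance, P, .inr true,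
    ?_, ?_, ?_⟩
  · -- correctness
    intro w
    have h1 := exec_loop w (fun _ : Unit => (.inr true : (Fin (i + 1) × Bool × (Fin q ⊕ Bool)) ⊕ Bool))
      ∅ (fun σ => tupP i Cs blk (tup s t σ) s (.inr true) N)
      (fun σ _ => hop w i (tup s t σ) s N (.inr true)) (fun _ => ⊤)
      (fun σ τ _ => ⟨fun _ => exec_tupP w i hcov _ s _ N τ, by simp⟩) L (fun _ => ⊤) (by simp) ()
    rw [value, hP, h1, min_eq_right le_top]
    apply le_antisymm
    · obtain ⟨p, n, h0, hn, hnN, hinj, hle⟩ := exists_path w hst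
      obtain ⟨σ, hσ, hhit⟩ := hL' p
      rw [hN] at hnN
      refine (iInf₂_le σ hσ).trans (le_trans ?_ hle)
      apply hop_complete w σ p h0 hn hnN
      intro j hj
      obtain ⟨i', h2, h3, k, hk⟩ := hhit (j + 1) (by omega)
        (fun a b h4 h5 h6 h7 h8 => hinj a b (by omega) (by omega) h8)
      exact ⟨i', h2, by omega, k, hk⟩
    · refine le_iInf₂ fun σ _ => ?_
      have := hop_sound w i (tup s t σ) s N (.inr true)
      rw [show tup s t σ (.inr true) = t from rfl, dist0, if_neg hst] at this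
      exact this
  · -- number of registers
    have h1 : 1 ≤ N / 2 ^ i := (Nat.one_le_div_iff (by positivity)).2 hi
    rw [Fintype.card_sum, Fintype.card_prod, Fintype.card_prod, Fintype.card_fin, hcardι,
      Fintype.card_bool, hq]
    obtain ⟨K, hK⟩ : ∃ K, N / 2 ^ i = K + 1 := ⟨N / 2 ^ i - 1, by omega⟩
    rw [hK]
    generalize Nat.log 2 N = l
    nlinarith [Nat.zero_le (i * l * K), Nat.zero_le (i * l), Nat.zero_le (i * K),
      Nat.zero_le (l * K), Nat.zero_le i, Nat.zero_le l, Nat.zero_le K]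
  · -- length
    obtain ⟨c, hc, hc', hc''⟩ := exists_length_F (regs i (Fin q ⊕ Bool)) Cs blk
      (by rw [hCslen]; positivity) (by rw [hcardι]; omega) i
    have hlen : P.length = L.length * (Fintype.card (Fin q ⊕ Bool) +
        N * (c + Fintype.card (Fin q ⊕ Bool)) + 1) := by
      rw [hP, List.length_flatMap]
      simp only [length_tupP i Cs blk hc, List.map_const', List.sum_replicate, smul_eq_mul]
    rw [hlen, hcardι]
    rw [hcardι, hCslen] at hc'
    have hlog : Nat.log 2 N + 1 ≤ N := Nat.log_lt_self 2 (by omega)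
    have hq2 : q + 2 ≤ 4 * N ^ 2 := by
      have h2 : N / 2 ^ i ≤ N := Nat.div_le_self _ _
      have h3 : q ≤ (N + 1) * (N + 1) := by
        rw [hq]
        exact Nat.mul_le_mul (by omega) (by omega)
      nlinarith
    have hpow : (3 * 2 ^ i) ^ i ≤ N ^ 2 * 2 ^ (i ^ 2) := by
      rw [mul_pow, ← pow_mul, ← pow_two]
      apply Nat.mul_le_mul_right
      calc 3 ^ i ≤ 4 ^ i := Nat.pow_le_pow_left (by norm_num) i
        _ = (2 ^ i) ^ 2 := by rw [← pow_mul, mul_comm, pow_mul]; norm_num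
        _ ≤ N ^ 2 := Nat.pow_le_pow_left hi 2
    have hc3 : c ≤ 64 * N ^ 6 * 2 ^ (i ^ 2) := by
      calc c ≤ 4 * (q + 2) ^ 2 * (3 * 2 ^ i) ^ i := hc'
        _ ≤ 4 * (4 * N ^ 2) ^ 2 * (N ^ 2 * 2 ^ (i ^ 2)) := by
            apply Nat.mul_le_mul _ hpow
            apply Nat.mul_le_mul_left
            exact Nat.pow_le_pow_left hq2 2
        _ = 64 * N ^ 6 * 2 ^ (i ^ 2) := by ring
    have hE : 1 ≤ 2 ^ (i ^ 2) := Nat.one_le_two_pow
    calc L.length * (q + 2 + N * (c + (q + 2)) + 1)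
        ≤ (N * N) * (4 * N ^ 2 + N * (64 * N ^ 6 * 2 ^ (i ^ 2) + 4 * N ^ 2) + 1) := by
          apply Nat.mul_le_mul
          · exact hL.trans (Nat.mul_le_mul_right _ hlog)
          · apply Nat.add_le_add_right
            apply Nat.add_le_add hq2
            exact Nat.mul_le_mul_left _ (Nat.add_le_add hc3 hq2)
      _ = 64 * N ^ 9 * 2 ^ (i ^ 2) + (4 * N ^ 5 + 4 * N ^ 4 + N ^ 2) := by ring
      _ ≤ 64 * N ^ 9 * 2 ^ (i ^ 2) + 64 * N ^ 9 * 2 ^ (i ^ 2) := by
          apply Nat.add_le_add_left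
          have e1 : N ^ 5 ≤ N ^ 9 := Nat.pow_le_pow_right (by omega) (by norm_num)
          have e2 : N ^ 4 ≤ N ^ 9 := Nat.pow_le_pow_right (by omega) (by norm_num)
          have e3 : N ^ 2 ≤ N ^ 9 := Nat.pow_le_pow_right (by omega) (by norm_num)
          have e4 : N ^ 9 * 1 ≤ N ^ 9 * 2 ^ (i ^ 2) := Nat.mul_le_mul_left _ hE
          rw [mul_assoc]
          omega
      _ = 128 * N ^ 9 * 2 ^ (i ^ 2) := by ring

end Pool.Agent.L5helper51.SV
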