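import Mathlib

/-!
# Walks and distances
-/

namespace Pool.Agent.L5helper51.SV

variable {V : Type*}

/-- The weight of the walk from `u` to `v` with the inner vertices `l`. -/
def walkWeight (w : V × V → ℕ∞) : V → List V → V → ℕ∞
  | u, [], v => w (u, v)
  | u, x :: l, v => w (u, x) + walkWeight w x l v

/-- The least weight of a walk from `s` to `t`. -/
noncomputable def dist (w : V × V → ℕ∞) (s t : V) : ℕ∞ := ⨅ l : List V, walkWeight w s l t

end Pool.Agent.L5helper51.SV
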