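import Pool.Agent.L5helper51.SV.Defs

/-!
# Walks, simple paths and hitting families
-/

namespace Pool.Agent.L5helper51.SV

open Finset

variable {V : Type*}

theorem walkWeight_append (w : V × V → ℕ∞) (x v : V) (l' : List V) : ∀ (l : List V) (u : V),
    walkWeight w u (l ++ x :: l') v = walkWeight w u l x + walkWeight w x l' v
  | [], u => rfl
  | y :: l, u => by
    rw [List.cons_append, walkWeight, walkWeight, walkWeight_append w x v l' l y, add_assoc]

theorem dist_triangle (w : V × V → ℕ∞) (u z v : V) : dist w u v ≤ dist w u z + dist w z v := by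
  obtain ⟨l1, h1⟩ := ENat.exists_eq_iInf (fun l : List V => walkWeight w u l z)
  obtain ⟨l2, h2⟩ := ENat.exists_eq_iInf (fun l : List V => walkWeight w z l v)
  rw [dist, dist, dist, ← h1, ← h2, ← walkWeight_append]
  exact iInf_le _ _

theorem exists_walk_dist (w : V × V → ℕ∞) (u v : V) : ∃ l, walkWeight w u l v = dist w u v :=
  ENat.exists_eq_iInf (fun l : List V => walkWeight w u l v)

section D

variable [DecidableEq V]

/-- the least weight of a walk from `u` to `v` with at most `2 ^ i` edges -/
noncomputable def D (w : V × V → ℕ∞) : ℕ → V → V → ℕ∞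
  | 0, u, v => if u = v then 0 else w (u, v)
  | i + 1, u, v => ⨅ z, (D w i u z + D w i z v)

/-- distance, `0` on the diagonal -/
noncomputable def dist0 (w : V × V → ℕ∞) (u v : V) : ℕ∞ := if u = v then 0 else dist w u v

theorem dist0_self (w : V × V → ℕ∞) (u : V) : dist0 w u u = 0 := by simp [dist0]

theorem dist0_triangle (w : V × V → ℕ∞) (u z v : V) :
    dist0 w u v ≤ dist0 w u z + dist0 w z v := by
  by_cases h1 : u = z
  · subst h1; simp [dist0_self]
  by_cases h2 : z = v
  · subst h2; simp [dist0_self]
  by_cases h3 : u = v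
  · subst h3; simp [dist0_self]
  simp only [dist0, if_neg h1, if_neg h2, if_neg h3]
  exact dist_triangle w u z v

theorem dist0_le_D (w : V × V → ℕ∞) : ∀ (i : ℕ) (u v : V), dist0 w u v ≤ D w i u v
  | 0, u, v => by
    by_cases h : u = v
    · simp [dist0, D, h]
    · simp only [dist0, D, if_neg h]
      exact iInf_le (fun l : List V => walkWeight w u l v) []
  | i + 1, u, v => by
    rw [D]
    refine le_iInf fun z => ?_
    exact (dist0_triangle w u z v).trans (add_le_add (dist0_le_D w i u z) (dist0_le_D w i z v))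

theorem D_self (w : V × V → ℕ∞) : ∀ (i : ℕ) (u : V), D w i u u = 0
  | 0, u => by simp [D]
  | i + 1, u => by
    rw [D]
    apply le_antisymm _ (zero_le)
    refine (iInf_le _ u).trans ?_
    rw [D_self w i u, zero_add]

theorem D_path (w : V × V → ℕ∞) (p : ℕ → V) : ∀ (i a n : ℕ), n ≤ 2 ^ i →
    D w i (p a) (p (a + n)) ≤ ∑ j ∈ range n, w (p (a + j), p (a + j + 1))
  | 0, a, n, hn => by
    rw [pow_zero] at hn
    rcases Nat.le_one_iff_eq_zero_or_eq_one.1 hn with rfl | rfl
    · simp [D]
    · simp only [D, range_one, sum_singleton, add_zero]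
      split_ifs
      · exact zero_le
      · exact le_rfl
  | i + 1, a, n, hn => by
    obtain ⟨n1, n2, hn12, h1, h2⟩ : ∃ n1 n2, n = n1 + n2 ∧ n1 ≤ 2 ^ i ∧ n2 ≤ 2 ^ i := by
      refine ⟨min n (2 ^ i), n - min n (2 ^ i), by omega, min_le_right _ _, ?_⟩
      have h : 2 ^ (i + 1) = 2 ^ i + 2 ^ i := by ring
      omega
    subst hn12
    rw [D]
    refine (iInf_le _ (p (a + n1))).trans ?_
    rw [sum_range_add]
    have h3 := D_path w p i a n1 h1
    have h4 := D_path w p i (a + n1) n2 h2
    rw [add_assoc a n1 n2] at h4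
    simp only [add_assoc] at h3 h4 ⊢
    exact add_le_add h3 h4

end D

/-! ### Simple paths -/

/-- a walk can be replaced by a walk without repetitions -/
theorem exists_simple (w : V × V → ℕ∞) (v : V) : ∀ (n : ℕ) (l : List V), l.length ≤ n →
    ∀ u, u ≠ v → ∃ l' : List V, (u :: (l' ++ [v])).Nodup ∧ (∀ x ∈ l', x ∈ l) ∧
      walkWeight w u l' v ≤ walkWeight w u l v := by
  intro n
  induction n with
  | zero =>
    intro l hl u hu
    obtain rfl : l = [] := List.length_eq_zero_iff.1 (Nat.le_zero.1 hl)
    exact ⟨[], by simpa using hu, by simp, le_rfl⟩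
  | succ n ih =>
    intro l hl u hu
    cases l with
    | nil => exact ⟨[], by simpa using hu, by simp, le_rfl⟩
    | cons x l =>
      by_cases hmem : u ∈ x :: l
      · obtain ⟨l1, l2, hll⟩ := List.append_of_mem hmem
        have hlen : (x :: l).length = l1.length + (l2.length + 1) := by rw [hll]; simp
        obtain ⟨l', h1, h2, h3⟩ := ih l2 (by omega) u hu
        refine ⟨l', h1, ?_, h3.trans ?_⟩
        · intro y hy
          rw [hll]
          exact List.mem_append_right _ (List.mem_cons_of_mem _ (h2 y hy))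
        · rw [hll, walkWeight_append]
          exact le_add_self
      · by_cases hx : x = v
        · subst hx
          refine ⟨[], by simpa using hu, by simp, ?_⟩
          rw [walkWeight, walkWeight]
          exact le_self_add
        · obtain ⟨l', h1, h2, h3⟩ := ih l (by simpa using hl) x hx
          refine ⟨x :: l', ?_, ?_, ?_⟩
          · rw [List.nodup_cons]
            refine ⟨?_, by simpa using h1⟩
            intro hu'
            rw [List.cons_append, List.mem_cons, List.mem_append, List.mem_singleton] at hu'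
            rcases hu' with rfl | hu' | hu'
            · exact hmem (by simp)
            · exact hmem (List.mem_cons_of_mem _ (h2 u hu'))
            · exact hu hu'
          · intro y hy
            rw [List.mem_cons] at hy ⊢
            exact hy.imp id (h2 y)
          · rw [walkWeight, walkWeight]
            exact add_le_add le_rfl h3

/-- the sequence of the vertices of a walk -/
def sq : V → List V → V → ℕ → V
  | u, _, _, 0 => u
  | _, [], v, _ + 1 => v
  | _, x :: l, v, j + 1 => sq x l v j

theorem sq_zero (u : V) (l : List V) (v : V) : sq u l v 0 = u := by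
  cases l <;> rfl

theorem sq_last : ∀ (u : V) (l : List V) (v : V), sq u l v (l.length + 1) = v
  | u, [], v => rfl
  | u, x :: l, v => by
    rw [List.length_cons, sq]
    exact sq_last x l v

theorem sq_sum (w : V × V → ℕ∞) : ∀ (u : V) (l : List V) (v : V),
    walkWeight w u l v = ∑ j ∈ range (l.length + 1), w (sq u l v j, sq u l v (j + 1))
  | u, [], v => by simp [walkWeight, sq]
  | u, x :: l, v => by
    rw [List.length_cons, sum_range_succ', walkWeight, sq_sum w x l v, add_comm]
    rw [sq_zero]
    congr 2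
    rw [sq, sq_zero]

theorem sq_mem : ∀ (u : V) (l : List V) (v : V) (j : ℕ), sq u l v j ∈ u :: (l ++ [v])
  | u, [], v, 0 => by simp [sq]
  | u, [], v, j + 1 => by simp [sq]
  | u, x :: l, v, 0 => by simp [sq]
  | u, x :: l, v, j + 1 => by
    rw [sq, List.cons_append]
    exact List.mem_cons_of_mem _ (sq_mem x l v j)

theorem sq_inj : ∀ (u : V) (l : List V) (v : V), (u :: (l ++ [v])).Nodup →
    ∀ j j', j ≤ l.length + 1 → j' ≤ l.length + 1 → sq u l v j = sq u l v j' → j = j'
  | u, [], v, hn, j, j', hj, hj', h => by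
    have huv : u ≠ v := by simpa using hn
    simp only [List.length_nil, zero_add] at hj hj'
    interval_cases j <;> interval_cases j'
    · rfl
    · exact absurd h huv
    · exact absurd h huv.symm
    · rfl
  | u, x :: l, v, hn, j, j', hj, hj', h => by
    rw [List.cons_append, List.nodup_cons] at hn
    rw [List.length_cons] at hj hj'
    cases j with
    | zero =>
      cases j' with
      | zero => rfl
      | succ j' =>
        rw [sq_zero, sq] at h
        exact absurd (h ▸ sq_mem x l v j') hn.1
    | succ j =>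
      cases j' with
      | zero =>
        rw [sq_zero, sq] at h
        exact absurd (h ▸ sq_mem x l v j) hn.1
      | succ j' =>
        rw [sq, sq] at h
        rw [sq_inj x l v hn.2 j j' (by omega) (by omega) h]

/-- For every weighting there is a path without repetitions whose weight is at most `dist`. -/
theorem exists_path [Fintype V] (w : V × V → ℕ∞) {s t : V} (hst : s ≠ t) :
    ∃ (p : ℕ → V) (n : ℕ), p 0 = s ∧ p n = t ∧ n < Fintype.card V ∧
      (∀ j j', j ≤ n → j' ≤ n → p j = p j' → j = j') ∧
      ∑ j ∈ range n, w (p j, p (j + 1)) ≤ dist w s t := by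
  classical
  obtain ⟨l, hl⟩ := exists_walk_dist w s t
  obtain ⟨l', h1, -, h3⟩ := exists_simple w t l.length l le_rfl s hst
  refine ⟨sq s l' t, l'.length + 1, sq_zero _ _ _, sq_last _ _ _, ?_, sq_inj _ _ _ h1, ?_⟩
  · have := h1.length_le_card
    simp only [List.length_cons, List.length_append, List.length_nil] at this
    omega
  · rw [← sq_sum]
    exact h3.trans hl.le

/-! ### Hitting families -/

/-- Greedy covering: if every point is hit by at least half of the sets, few sets hit everything. -/
theorem greedy {A S : Type*} [Fintype S] [Nonempty S] (good : A → S → Prop)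
    (h : ∀ a, ∃ G : Finset S, Fintype.card S ≤ 2 * G.card ∧ ∀ σ ∈ G, good a σ) :
    ∀ (m : ℕ) (X : Finset A), X.card < 2 ^ m → ∃ L : List S, L.length ≤ m ∧
      ∀ a ∈ X, ∃ σ ∈ L, good a σ := by
  classical
  choose G hG hG' using h
  intro m
  induction m with
  | zero =>
    intro X hX
    have : X = ∅ := by
      rw [← card_eq_zero]
      simpa using hX
    subst this
    exact ⟨[], le_rfl, by simp⟩
  | succ m ih =>
    intro X hX
    -- a set which hits half of `X`
    have hex : ∃ σ : S, X.card ≤ 2 * #{a ∈ X | σ ∈ G a} := by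
      by_contra hcon
      push Not at hcon
      have h1 : ∑ σ : S, 2 * #{a ∈ X | σ ∈ G a} < ∑ _σ : S, X.card :=
        Finset.sum_lt_sum_of_nonempty univ_nonempty (fun σ _ => hcon σ)
      have h2 : ∑ σ : S, #{a ∈ X | σ ∈ G a} = ∑ a ∈ X, #(G a) := by
        simp only [card_filter]
        rw [sum_comm]
        apply Finset.sum_congr rfl
        intro a _
        rw [← card_filter]
        congr 1
        ext σ
        simp
      rw [← Finset.mul_sum, h2, sum_const, card_univ, smul_eq_mul, Finset.mul_sum] at h1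
      have h3 : Fintype.card S * X.card ≤ ∑ a ∈ X, 2 * #(G a) := by
        calc Fintype.card S * X.card = ∑ _a ∈ X, Fintype.card S := by
              rw [sum_const, smul_eq_mul, mul_comm]
          _ ≤ _ := Finset.sum_le_sum (fun a _ => hG a)
      omega
    obtain ⟨σ, hσ⟩ := hex
    have hcard : #{a ∈ X | σ ∈ G a} + #{a ∈ X | ¬ σ ∈ G a} = X.card :=
      card_filter_add_card_filter_not (s := X) (fun a => σ ∈ G a)
    obtain ⟨L, hL, hL'⟩ := ih {a ∈ X | ¬ σ ∈ G a} (by rw [pow_succ] at hX; omega)
    refine ⟨σ :: L, by simpa using hL, ?_⟩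
    intro a ha
    by_cases hmem : σ ∈ G a
    · exact ⟨σ, by simp, hG' a σ hmem⟩
    · obtain ⟨τ, hτ, hτ'⟩ := hL' a (by simp [ha, hmem])
      exact ⟨τ, List.mem_cons_of_mem _ hτ, hτ'⟩

/-- `2 (N - h) ^ m ≤ N ^ m` if `N ≤ m h`. -/
theorem two_mul_pow_le {N h m : ℕ} (hh : h ≤ N) (hm : N ≤ m * h) (hN : 0 < N) :
    2 * (N - h) ^ m ≤ N ^ m := by
  obtain ⟨d, rfl⟩ := Nat.exists_eq_add_of_le' hh
  rw [Nat.add_sub_cancel]
  rcases Nat.eq_zero_or_pos m with rfl | hm0
  · omega
  obtain ⟨m, rfl⟩ : ∃ k, m = k + 1 := ⟨m - 1, by omega⟩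
  have key : ∀ k : ℕ, d ^ (k + 1) + (k + 1) * h * d ^ k ≤ (d + h) ^ (k + 1) := by
    intro k
    induction k with
    | zero => simp
    | succ k ih =>
      calc d ^ (k + 1 + 1) + (k + 1 + 1) * h * d ^ (k + 1)
          ≤ (d ^ (k + 1) + (k + 1) * h * d ^ k) * (d + h) := by
            have : (d ^ (k + 1) + (k + 1) * h * d ^ k) * (d + h) =
              d ^ (k + 1 + 1) + (k + 1 + 1) * h * d ^ (k + 1) + (k + 1) * h * h * d ^ k := by ring
            omega
        _ ≤ (d + h) ^ (k + 1) * (d + h) := Nat.mul_le_mul_right _ ih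
        _ = _ := by ring
  refine le_trans ?_ (key m)
  have h1 : d ≤ (m + 1) * h := by omega
  have h2 : d * d ^ m ≤ (m + 1) * h * d ^ m := Nat.mul_le_mul_right _ h1
  rw [pow_succ]
  nlinarith

/-- The functions `Fin q → V` which avoid a given set. -/
theorem card_avoid [Fintype V] [DecidableEq V] (W : Finset V) (q : ℕ) :
    #{σ : Fin q → V | ∀ k, σ k ∉ W} = (Fintype.card V - W.card) ^ q := by
  have : ({σ : Fin q → V | ∀ k, σ k ∉ W} : Finset (Fin q → V)) =
      Fintype.piFinset (fun _ => Wᶜ) := by
    ext σ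
    simp [Fintype.mem_piFinset]
  rw [this, Fintype.card_piFinset]
  simp [card_compl]

/-- Hitting families: at most `N (log₂ N + 1)` tuples of `(log₂ N + 2) (N / h + 1)` vertices such
that for every sequence `p` of vertices one of them meets all windows of length `h` of `p` without
repetitions. -/
theorem hitting [Fintype V] [Nonempty V] {h : ℕ} (hh : 0 < h) (hhN : h ≤ Fintype.card V) :
    ∃ L : List (Fin ((Nat.log 2 (Fintype.card V) + 2) * (Fintype.card V / h + 1)) → V),
      L.length ≤ (Nat.log 2 (Fintype.card V) + 1) * Fintype.card V ∧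
      ∀ p : ℕ → V, ∃ σ ∈ L, ∀ j, j + h ≤ Fintype.card V →
        (∀ i i', j ≤ i → i < j + h → j ≤ i' → i' < j + h → p i = p i' → i = i') →
        ∃ i, j ≤ i ∧ i < j + h ∧ ∃ k, σ k = p i := by
  classical
  set N := Fintype.card V with hN
  have hNpos : 0 < N := by omega
  set q := (Nat.log 2 N + 2) * (N / h + 1) with hq
  let good : (Fin N → V) → (Fin q → V) → Prop := fun p σ => ∀ j, (hj : j + h ≤ N) →
    (∀ i i' : Fin N, j ≤ i.1 → i.1 < j + h → j ≤ i'.1 → i'.1 < j + h → p i = p i' → i = i') →
    ∃ i : Fin N, j ≤ i.1 ∧ i.1 < j + h ∧ ∃ k, σ k = p i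
  have hgood : ∀ p : Fin N → V, ∃ G : Finset (Fin q → V), Fintype.card (Fin q → V) ≤ 2 * G.card ∧
      ∀ σ ∈ G, good p σ := by
    intro p
    refine ⟨({σ | good p σ} : Finset (Fin q → V)), ?_, fun σ hσ => by simpa using hσ⟩
    let win : ℕ → Finset V := fun j => ({i : Fin N | j ≤ i.1 ∧ i.1 < j + h} : Finset (Fin N)).image p
    let bad : Finset ℕ := {j ∈ range (N + 1) | j + h ≤ N ∧ ∀ i i' : Fin N, j ≤ i.1 → i.1 < j + h →
      j ≤ i'.1 → i'.1 < j + h → p i = p i' → i = i'}
    have hwin : ∀ j ∈ bad, #(win j) = h := by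
      intro j hj
      simp only [bad, mem_filter, mem_range] at hj
      obtain ⟨-, hj1, hj2⟩ := hj
      rw [card_image_of_injOn]
      · have : ({i : Fin N | j ≤ i.1 ∧ i.1 < j + h} : Finset (Fin N)) =
            (univ : Finset (Fin h)).image (fun a => (⟨j + a.1, by omega⟩ : Fin N)) := by
          ext i
          simp only [mem_filter, mem_univ, true_and, mem_image]
          constructor
          · rintro ⟨h1, h2⟩
            exact ⟨⟨i.1 - j, by omega⟩, Fin.ext (by simp; omega)⟩
          · rintro ⟨a, rfl⟩
            simp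
        rw [this, card_image_of_injective _ (fun a b hab => by
          rw [Fin.mk.injEq] at hab
          exact Fin.ext (by omega)), card_univ, Fintype.card_fin]
      · intro i hi i' hi' hii
        simp only [coe_filter, mem_univ, true_and, Set.mem_ofPred_eq] at hi hi'
        exact hj2 i i' hi.1 hi.2 hi'.1 hi'.2 hii
    have hsub : ({σ | ¬ good p σ} : Finset (Fin q → V)) ⊆
        bad.biUnion (fun j => ({σ : Fin q → V | ∀ k, σ k ∉ win j} : Finset (Fin q → V))) := by
      intro σ hσ
      simp only [mem_filter, mem_univ, true_and, good] at hσ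
      push Not at hσ
      obtain ⟨j, hj, hj2, hj3⟩ := hσ
      refine mem_biUnion.2 ⟨j, ?_, ?_⟩
      · simp only [bad, mem_filter, mem_range]
        exact ⟨by omega, hj, hj2⟩
      · simp only [mem_filter, mem_univ, true_and]
        intro k hk
        simp only [win, mem_image, mem_filter, mem_univ, true_and] at hk
        obtain ⟨i, hi, hik⟩ := hk
        exact hj3 i hi.1 hi.2 k hik.symm
    have hbad : bad.card ≤ N := by
      have : bad ⊆ range N := by
        intro j hj
        simp only [bad, mem_filter, mem_range] at hj ⊢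
        omega
      simpa using Finset.card_le_card this
    have hcard : #({σ | ¬ good p σ} : Finset (Fin q → V)) ≤ N * (N - h) ^ q := by
      refine (card_le_card hsub).trans (card_biUnion_le.trans ?_)
      calc ∑ j ∈ bad, #{σ : Fin q → V | ∀ k, σ k ∉ win j} = ∑ j ∈ bad, (N - h) ^ q := by
            apply Finset.sum_congr rfl
            intro j hj
            rw [card_avoid, hwin j hj]
        _ = bad.card * (N - h) ^ q := by rw [sum_const, smul_eq_mul]
        _ ≤ _ := Nat.mul_le_mul_right _ hbad
    have hpow : 2 * (N * (N - h) ^ q) ≤ N ^ q := by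
      have h1 : 2 * (N - h) ^ (N / h + 1) ≤ N ^ (N / h + 1) := by
        apply two_mul_pow_le hhN _ hNpos
        have := Nat.lt_div_mul_add (a := N) hh
        rw [add_mul, one_mul]
        omega
      have h2 : (2 * (N - h) ^ (N / h + 1)) ^ (Nat.log 2 N + 2) ≤
          (N ^ (N / h + 1)) ^ (Nat.log 2 N + 2) := Nat.pow_le_pow_left h1 _
      rw [mul_pow, ← pow_mul, ← pow_mul, mul_comm (N / h + 1), ← hq] at h2
      have h3 : N < 2 ^ (Nat.log 2 N + 1) := Nat.lt_pow_succ_log_self (by norm_num) N
      calc 2 * (N * (N - h) ^ q) = (2 * N) * (N - h) ^ q := by ring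
        _ ≤ 2 ^ (Nat.log 2 N + 2) * (N - h) ^ q := by
            apply Nat.mul_le_mul_right
            rw [pow_succ]
            omega
        _ ≤ _ := h2
    have hcompl : #({σ | good p σ} : Finset (Fin q → V)) + #({σ | ¬ good p σ} : Finset (Fin q → V)) =
        Fintype.card (Fin q → V) := by
      rw [card_filter_add_card_filter_not, card_univ]
    have hfun : Fintype.card (Fin q → V) = N ^ q := by simp [hN]
    omega
  have : Nonempty (Fin q → V) := ⟨fun _ => Classical.arbitrary V⟩
  obtain ⟨L, hL, hL'⟩ := greedy good hgood ((Nat.log 2 N + 1) * N) univ (by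
    rw [card_univ, Fintype.card_fun, Fintype.card_fin, pow_mul]
    exact Nat.pow_lt_pow_left (Nat.lt_pow_succ_log_self (by norm_num) N) hNpos.ne')
  refine ⟨L, hL, fun p => ?_⟩
  obtain ⟨σ, hσ, hg⟩ := hL' (fun i => p i.1) (mem_univ _)
  refine ⟨σ, hσ, fun j hj hinj => ?_⟩
  obtain ⟨i, hi1, hi2, k, hk⟩ := hg j hj
    (fun i i' h1 h2 h3 h4 h5 => Fin.ext (hinj i.1 i'.1 h1 h2 h3 h4 h5))
  exact ⟨i.1, hi1, hi2, k, hk⟩

end Pool.Agent.L5helper51.SV
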